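import Pool.Agent.helper73.BS.Spec

set_option autoImplicit false

namespace Pool.Agent.BS

open Matrix Module Pool.Agent.UG Pool.Agent.H48SL Pool.Agent.SHL

/-- the size of a polynomial -/
noncomputable def XI_m {K : Type} [Field K] (q : Polynomial K) : ℕ := by
  classical
  exact if q = 0 then 0 else q.natDegree + 1

theorem XI_m_zero {K : Type} [Field K] {q : Polynomial K} (h : XI_m q = 0) : q = 0 := by
  by_contra hq
  rw [XI_m, if_neg hq] at h
  omega

theorem XI_m_le {K : Type} [Field K] {q r : Polynomial K} (h : r = 0 → q = 0) (h1 : q.natDegree ≤ r.natDegree) :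
    XI_m q ≤ XI_m r := by
  unfold XI_m
  split_ifs with h2 h3
  · omega
  · omega
  · exact absurd (h (by assumption)) h2
  · omega

theorem XI_m_lt {K : Type} [Field K] {q r : Polynomial K} (h : q.degree < r.degree) : XI_m q < XI_m r := by
  have hr : r ≠ 0 := by
    rintro rfl
    rw [Polynomial.degree_zero] at h
    exact absurd h not_lt_bot
  unfold XI_m
  rw [if_neg hr]
  split_ifs with h2
  · omega
  · have := Polynomial.natDegree_lt_natDegree h2 h
    omega

theorem XI : XI_stmt := by
  intro K _ _
  have key : ∀ (N : ℕ) (s : Finset Kˣ) (p : Kˣ → Polynomial K), ∑ z ∈ s, XI_m (p z) ≤ N →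
      (∀ k : ℕ, ∑ z ∈ s, (p z).eval (k : K) * (z : K) ^ k = 0) → ∀ z ∈ s, p z = 0 := by
    intro N
    induction N with
    | zero =>
      intro s p hN _ z hz
      have h1 : ∑ z ∈ s, XI_m (p z) = 0 := by omega
      exact XI_m_zero (Finset.sum_eq_zero_iff.1 h1 z hz)
    | succ N ih =>
      intro s p hN hp z₀ hz₀
      by_contra hne
      set p' : Kˣ → Polynomial K := fun z =>
        Polynomial.C (z : K) * Polynomial.taylor 1 (p z) - Polynomial.C (z₀ : K) * p z with hp'
      have hle : ∀ z, XI_m (p' z) ≤ XI_m (p z) := by
        intro z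
        apply XI_m_le
        · intro h
          simp only [hp', h, map_zero, mul_zero, sub_zero]
        · refine (Polynomial.natDegree_sub_le _ _).trans (max_le ?_ ?_)
          · refine (Polynomial.natDegree_C_mul_le _ _).trans ?_
            rw [Polynomial.natDegree_taylor]
          · exact Polynomial.natDegree_C_mul_le _ _
      have hlt : XI_m (p' z₀) < XI_m (p z₀) := by
        apply XI_m_lt
        have h1 : p' z₀ = Polynomial.C (z₀ : K) * (Polynomial.taylor 1 (p z₀) - p z₀) := by
          rw [hp', mul_sub]
        have h2 : (Polynomial.taylor 1 (p z₀) - p z₀).degree < (Polynomial.taylor 1 (p z₀)).degree := by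
          apply Polynomial.degree_sub_lt_left
          · rw [Polynomial.degree_taylor]
          · intro h
            apply hne
            have h3 := congrArg Polynomial.degree h
            rw [Polynomial.degree_taylor, Polynomial.degree_zero] at h3
            exact Polynomial.degree_eq_bot.1 h3
          · rw [Polynomial.leadingCoeff_taylor]
        rw [Polynomial.degree_taylor] at h2
        rw [h1, Polynomial.degree_C_mul (Units.ne_zero z₀)]
        exact h2
      have hsum : ∑ z ∈ s, XI_m (p' z) ≤ N := by
        have := Finset.sum_lt_sum (fun z _ => hle z) ⟨z₀, hz₀, hlt⟩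
        omega
      have hp'0 : ∀ k : ℕ, ∑ z ∈ s, (p' z).eval (k : K) * (z : K) ^ k = 0 := by
        intro k
        have h1 := hp (k + 1)
        have h2 := hp k
        have h3 : ∑ z ∈ s, (p' z).eval (k : K) * (z : K) ^ k =
            ∑ z ∈ s, (p z).eval ((k + 1 : ℕ) : K) * (z : K) ^ (k + 1) -
              (z₀ : K) * ∑ z ∈ s, (p z).eval (k : K) * (z : K) ^ k := by
          rw [Finset.mul_sum, ← Finset.sum_sub_distrib]
          apply Finset.sum_congr rfl
          intro z _
          simp only [hp', Polynomial.eval_sub, Polynomial.eval_mul, Polynomial.eval_C, Polynomial.taylor_eval]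
          push_cast
          rw [pow_succ]
          ring
        rw [h3, h1, h2, mul_zero, sub_zero]
      have hz := ih s p' hsum hp'0
      have hother : ∀ z ∈ s, z ≠ z₀ → p z = 0 := by
        intro z hzs hzz
        by_contra h
        have h1 := hz z hzs
        have h2 : Polynomial.C (z : K) * Polynomial.taylor 1 (p z) = Polynomial.C (z₀ : K) * p z :=
          sub_eq_zero.1 h1
        have h3 := congrArg Polynomial.leadingCoeff h2
        rw [Polynomial.leadingCoeff_mul, Polynomial.leadingCoeff_mul, Polynomial.leadingCoeff_C,
          Polynomial.leadingCoeff_C, Polynomial.leadingCoeff_taylor] at h3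
        exact hzz (Units.ext (mul_right_cancel₀ (Polynomial.leadingCoeff_ne_zero.2 h) h3))
      apply hne
      apply Polynomial.eq_zero_of_infinite_isRoot
      apply Set.infinite_of_injective_forall_mem (Nat.cast_injective (R := K))
      intro k
      have h1 := hp k
      rw [Finset.sum_eq_single z₀ (fun z hzs hzz => by rw [hother z hzs hzz, Polynomial.eval_zero, zero_mul])
        (fun h => absurd hz₀ h)] at h1
      rcases mul_eq_zero.1 h1 with h2 | h2
      · exact h2
      · exact absurd h2 (pow_ne_zero _ (Units.ne_zero z₀))
  intro s p hp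
  exact key _ s p le_rfl hp

end Pool.Agent.BS
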