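import Pool.Agent.helper73.BS.Spec

set_option autoImplicit false

namespace Pool.Agent.BS

open Matrix Module Pool.Agent.UG Pool.Agent.H48SL Pool.Agent.SHL

open Polynomial in
/-- a polynomial which vanishes at the roots of a separable minimal polynomial kills the matrix -/
theorem XZ_kill {n : ℕ} (s : MQ n) (hss : Module.End.IsSemisimple (Matrix.toLin' s)) (Q : KB[X])
    (hQ : ∀ θ ∈ ((minpoly ℚ s).map (algebraMap ℚ KB)).roots, Q.eval θ = 0) :
    aeval (s.map (algebraMap ℚ KB)) Q = 0 := by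
  classical
  have hint : IsIntegral ℚ s := Algebra.IsIntegral.isIntegral s
  have hmonic : (minpoly ℚ s).Monic := minpoly.monic hint
  have hsq : Squarefree (minpoly ℚ s) := by
    have := hss.minpoly_squarefree
    rwa [Matrix.minpoly_toLin'] at this
  have hsep : (minpoly ℚ s).Separable := PerfectField.separable_iff_squarefree.2 hsq
  have hsep' : ((minpoly ℚ s).map (algebraMap ℚ KB)).Separable := hsep.map
  have hnd := nodup_roots hsep'
  have hne : (minpoly ℚ s).map (algebraMap ℚ KB) ≠ 0 := (hmonic.map _).ne_zero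
  by_cases hQ0 : Q = 0
  · rw [hQ0, map_zero]
  have hdvd : (minpoly ℚ s).map (algebraMap ℚ KB) ∣ Q := by
    apply (IsAlgClosed.splits _).dvd_of_roots_le_roots hne
    rw [Multiset.le_iff_subset hnd]
    intro θ hθ
    rw [mem_roots hQ0]
    exact hQ θ hθ
  obtain ⟨R, hR⟩ := hdvd
  have h1 : aeval (s.map (algebraMap ℚ KB)) ((minpoly ℚ s).map (algebraMap ℚ KB)) = 0 := by
    have h2 := map_aeval_eq_aeval_map (φ := algebraMap ℚ KB) (ψ := (algebraMap ℚ KB).mapMatrix (m := Fin n))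
      (R := ℚ) (S := MQ n) (U := Matrix (Fin n) (Fin n) KB)
      (by
        apply RingHom.ext
        intro x
        ext a b
        simp only [RingHom.comp_apply, RingHom.mapMatrix_apply, Matrix.map_apply, Matrix.algebraMap_matrix_apply]
        split_ifs <;> simp) (minpoly ℚ s) s
    rw [minpoly.aeval, map_zero] at h2
    exact h2.symm
  rw [hR, map_mul, h1, zero_mul]

theorem XZ_sum (hXA : XA_stmt) (Λ : Subgroup KBˣ) {ι : Type} (t : Finset ι) (z : ι → KBˣ) (c : ι → KB)
    (hz : ∀ i ∈ t, z i ∈ Λ) : CF Λ (fun k _ => ∑ i ∈ t, (z i : KB) ^ k * c i) := by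
  classical
  obtain ⟨hc, hx, hz', hadd, hmul⟩ := hXA Λ
  induction t using Finset.induction_on with
  | empty => simpa using hc 0
  | insert a t ha ih =>
    have h1 := ih (fun i hi => hz i (Finset.mem_insert_of_mem hi))
    have h2 := hmul _ _ (hz' (z a) (hz a (Finset.mem_insert_self a t))) (hc (c a))
    have h3 := hadd _ _ h2 h1
    simpa only [Finset.sum_insert ha] using h3

open Polynomial in
theorem XZ (hXA : XA_stmt) : XZ_stmt := by
  intro n s Λ hdet hss hΛ i j
  classical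
  set sK := s.map (algebraMap ℚ KB) with hsK
  set t := ((minpoly ℚ s).map (algebraMap ℚ KB)).roots.toFinset with ht
  -- the roots are in `Λ`
  have hroot : ∀ θ ∈ t, ∃ z ∈ Λ, (z : KB) = θ := by
    intro θ hθ
    rw [ht, Multiset.mem_toFinset] at hθ
    have h1 : IsRoot ((minpoly ℚ s).map (algebraMap ℚ KB)) θ := isRoot_of_mem_roots hθ
    have h2 : (minpoly ℚ s).map (algebraMap ℚ KB) ∣ sK.charpoly := by
      rw [hsK, Matrix.charpoly_map]
      exact Polynomial.map_dvd _ (Matrix.minpoly_dvd_charpoly s)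
    have h3 : eval θ sK.charpoly = 0 := (h1.dvd h2)
    rw [Matrix.eval_charpoly] at h3
    obtain ⟨w, hw, hw0⟩ := Matrix.exists_mulVec_eq_zero_iff.2 h3
    apply hΛ θ w hw
    rw [Matrix.sub_mulVec, sub_eq_zero] at hw0
    rw [← hw0]
    rw [Matrix.scalar_apply, ← Matrix.smul_one_eq_diagonal, Matrix.smul_mulVec, Matrix.one_mulVec]
  choose! z hzΛ hzθ using hroot
  set E : KB → Matrix (Fin n) (Fin n) KB := fun θ => aeval sK (Lagrange.basis t id θ) with hE
  have hinj : Set.InjOn (id : KB → KB) (t : Set KB) := Function.injective_id.injOn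
  have hkill : ∀ Q : KB[X], (∀ θ ∈ t, Q.eval θ = 0) → aeval sK Q = 0 := by
    intro Q hQ
    exact XZ_kill s hss Q (fun θ hθ => hQ θ (Multiset.mem_toFinset.2 hθ))
  have hev : ∀ (f : KB → KB) (θ' : KB), θ' ∈ t →
      eval θ' (∑ θ ∈ t, C (f θ) * Lagrange.basis t id θ) = f θ' := by
    intro f θ' hθ'
    rw [eval_finsetSum, Finset.sum_eq_single θ']
    · rw [eval_mul, eval_C]
      have := Lagrange.eval_basis_self hinj hθ'
      rw [id] at this
      rw [this, mul_one]
    · intro θ _ hne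
      rw [eval_mul]
      have := Lagrange.eval_basis_of_ne (v := (id : KB → KB)) hne hθ'
      rw [id] at this
      rw [this, mul_zero]
    · intro h
      exact absurd hθ' h
  have haev : ∀ f : KB → KB, aeval sK (∑ θ ∈ t, C (f θ) * Lagrange.basis t id θ) = ∑ θ ∈ t, f θ • E θ := by
    intro f
    rw [map_sum]
    apply Finset.sum_congr rfl
    intro θ _
    rw [map_mul, aeval_C, hE, Algebra.smul_def]
  have hpow : ∀ k : ℕ, sK ^ k = ∑ θ ∈ t, θ ^ k • E θ := by
    intro k
    have h1 := hkill (X ^ k - ∑ θ ∈ t, C (θ ^ k) * Lagrange.basis t id θ) (by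
      intro θ' hθ'
      rw [eval_sub, hev (fun θ => θ ^ k) θ' hθ', eval_pow, eval_X, sub_self])
    rw [map_sub, haev (fun θ => θ ^ k), map_pow, aeval_X, sub_eq_zero] at h1
    exact h1
  have hpow' : ∀ k : ℕ, sK ^ k * ∑ θ ∈ t, (θ⁻¹) ^ k • E θ = 1 := by
    intro k
    have h1 := hkill (X ^ k * (∑ θ ∈ t, C ((θ⁻¹) ^ k) * Lagrange.basis t id θ) - 1) (by
      intro θ' hθ'
      have hne : θ' ≠ 0 := by
        rw [← hzθ θ' hθ']
        exact Units.ne_zero _
      rw [eval_sub, eval_mul, hev (fun θ => (θ⁻¹) ^ k) θ' hθ', eval_pow, eval_X, eval_one, ← mul_pow,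
        mul_inv_cancel₀ hne, one_pow, sub_self])
    rw [map_sub, map_mul, haev (fun θ => (θ⁻¹) ^ k), map_pow, aeval_X, map_one, sub_eq_zero] at h1
    exact h1
  have hmap : ∀ (M : MQ n) (k : ℕ), (M ^ k).map (algebraMap ℚ KB) = (M.map (algebraMap ℚ KB)) ^ k := by
    intro M k
    have := map_pow ((algebraMap ℚ KB).mapMatrix (m := Fin n)) M k
    simpa only [RingHom.mapMatrix_apply] using this
  have hinvK : ∀ k : ℕ, (s⁻¹ ^ k).map (algebraMap ℚ KB) = ∑ θ ∈ t, (θ⁻¹) ^ k • E θ := by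
    intro k
    have h1 : (s⁻¹ ^ k).map (algebraMap ℚ KB) * sK ^ k = 1 := by
      rw [hsK, ← hmap, ← Matrix.map_mul]
      have h2 : s⁻¹ ^ k * s ^ k = 1 := by
        rw [Matrix.inv_pow', Matrix.nonsing_inv_mul]
        rw [Matrix.det_pow]
        exact hdet.pow k
      rw [h2]
      exact Matrix.map_one _ (map_zero _) (map_one _)
    exact left_inv_eq_right_inv h1 (hpow' k)
  constructor
  · have h1 := XZ_sum hXA Λ t z (fun θ => E θ i j) hzΛ
    have h2 : (fun (k : ℕ) (_ : ℚ) => algebraMap ℚ KB ((s ^ k) i j)) =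
        fun (k : ℕ) (_ : ℚ) => ∑ θ ∈ t, (z θ : KB) ^ k * E θ i j := by
      funext k _
      have h3 : algebraMap ℚ KB ((s ^ k) i j) = ((s ^ k).map (algebraMap ℚ KB)) i j := rfl
      rw [h3, hmap, ← hsK, hpow k, Matrix.sum_apply]
      apply Finset.sum_congr rfl
      intro θ hθ
      rw [Matrix.smul_apply, smul_eq_mul, hzθ θ hθ]
    rw [h2]
    exact h1
  · have h1 := XZ_sum hXA Λ t (fun θ => (z θ)⁻¹) (fun θ => E θ i j) (fun θ hθ => Λ.inv_mem (hzΛ θ hθ))
    have h2 : (fun (k : ℕ) (_ : ℚ) => algebraMap ℚ KB ((s⁻¹ ^ k) i j)) =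
        fun (k : ℕ) (_ : ℚ) => ∑ θ ∈ t, (((z θ)⁻¹ : KBˣ) : KB) ^ k * E θ i j := by
      funext k _
      have h3 : algebraMap ℚ KB ((s⁻¹ ^ k) i j) = ((s⁻¹ ^ k).map (algebraMap ℚ KB)) i j := rfl
      rw [h3, hinvK k, Matrix.sum_apply]
      apply Finset.sum_congr rfl
      intro θ hθ
      rw [Matrix.smul_apply, smul_eq_mul, Units.val_inv_eq_inv_val, hzθ θ hθ]
    rw [h2]
    exact h1

end Pool.Agent.BS
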